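import Mathlib

set_option autoImplicit false

/-!
There are no `C^1` blid maps at the spheres of `C[0,1]`: such a map would give a Fréchet smooth bump
function on `C[0,1]`.
-/

namespace Pool.Agent.Results.MP_a52dbe_an.NoBlidAtSphere

open Set Filter Topology

/-- The Banach space `C[0,1]` with the sup norm. -/
abbrev E : Type := C(Set.Icc (0 : ℝ) 1, ℝ)

/-- `H` is a `C^q` blid map at `S` for `U`. -/
def IsBlid (q : ℕ∞) (S U : Set E) (H : E → E) : Prop :=
  ContDiff ℝ q H ∧ (∀ x, H x ∈ U) ∧ ∃ V ∈ 𝓝ˢ S, V ⊆ U ∧ ∀ x ∈ V, H x = x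

/-- `S` admits `C^q` blid maps. -/
def AdmitsBlid (q : ℕ∞) (S : Set E) : Prop :=
  ∀ U ∈ 𝓝ˢ S, ∃ H : E → E, IsBlid q S U H

/-- A maximality principle (Ekeland, Brezis-Browder). -/
lemma exists_maximal {Y : Type*} [MetricSpace Y] [CompleteSpace Y] (R : Y → Y → Prop)
    (hrefl : ∀ x, R x x) (htrans : ∀ x y z, R x y → R y z → R x z)
    (hclosed : ∀ x, IsClosed {y | R x y}) (φ : Y → ℝ) (hbdd : ∀ x, 0 ≤ φ x)
    (hφ : ∀ x y, R x y → dist x y ≤ φ x - φ y) (x₀ : Y) :
    ∃ x, R x₀ x ∧ ∀ y, R x y → y = x := by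
  -- the infimum of `φ` over the upper set
  have hinf : ∀ x : Y, ∃ y, R x y ∧ ∀ z, R x z → φ y ≤ φ z + (φ x - φ y) := by
    intro x
    set m := sInf (φ '' {y | R x y}) with hm
    have hb : BddBelow (φ '' {y | R x y}) := ⟨0, by rintro _ ⟨y, _, rfl⟩; exact hbdd y⟩
    have hne : (φ '' {y | R x y}).Nonempty := ⟨φ x, x, hrefl x, rfl⟩
    have hmx : m ≤ φ x := csInf_le hb ⟨x, hrefl x, rfl⟩
    rcases hmx.eq_or_lt with h | h
    · refine ⟨x, hrefl x, fun z hz => ?_⟩
      have : m ≤ φ z := csInf_le hb ⟨z, hz, rfl⟩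
      linarith
    · obtain ⟨_, ⟨y, hy, rfl⟩, hy2⟩ := exists_lt_of_csInf_lt hne
        (show m < (m + φ x) / 2 by linarith)
      refine ⟨y, hy, fun z hz => ?_⟩
      have : m ≤ φ z := csInf_le hb ⟨z, hz, rfl⟩
      linarith
  choose f hf1 hf2 using hinf
  let u : ℕ → Y := fun n => f^[n] x₀
  have hu : ∀ n, u (n + 1) = f (u n) := fun n => Function.iterate_succ_apply' f n x₀
  have hR1 : ∀ n, R (u n) (u (n + 1)) := fun n => by rw [hu]; exact hf1 _
  have hR : ∀ n m, n ≤ m → R (u n) (u m) := by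
    intro n m hnm
    induction m, hnm using Nat.le_induction with
    | base => exact hrefl _
    | succ m _ ih => exact htrans _ _ _ ih (hR1 m)
  have hanti : Antitone fun n => φ (u n) := by
    refine antitone_nat_of_succ_le fun n => ?_
    have := hφ _ _ (hR1 n)
    have := dist_nonneg (x := u n) (y := u (n + 1))
    linarith
  have hlim : Tendsto (fun n => φ (u n)) atTop (𝓝 (⨅ n, φ (u n))) :=
    tendsto_atTop_ciInf hanti ⟨0, by rintro _ ⟨n, rfl⟩; exact hbdd _⟩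
  set L := ⨅ n, φ (u n) with hL
  have hcau : CauchySeq u := by
    refine cauchySeq_of_le_tendsto_0' (fun n => φ (u n) - L) (fun n m hnm => ?_) ?_
    · have h1 := hφ _ _ (hR n m hnm)
      have h2 : L ≤ φ (u m) := ciInf_le ⟨0, by rintro _ ⟨n, rfl⟩; exact hbdd _⟩ m
      linarith
    · simpa using hlim.sub_const L
  obtain ⟨x, hx⟩ := cauchySeq_tendsto_of_complete hcau
  have hRx : ∀ n, R (u n) x := fun n =>
    (hclosed (u n)).mem_of_tendsto hx (eventually_atTop.2 ⟨n, fun m hm => hR n m hm⟩)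
  refine ⟨x, hRx 0, fun y hy => ?_⟩
  -- `φ (u (n+1)) ≤ φ y + (φ (u n) - φ (u (n+1)))`
  have h1 : ∀ n, φ (u (n + 1)) ≤ φ y + (φ (u n) - φ (u (n + 1))) := by
    intro n
    have := hf2 (u n) y (htrans _ _ _ (hRx n) hy)
    rw [← hu] at this
    exact this
  have h2 : L ≤ φ y := by
    have h3 : Tendsto (fun n => φ (u (n + 1))) atTop (𝓝 L) :=
      hlim.comp (tendsto_add_atTop_nat 1)
    have h4 : Tendsto (fun n => φ y + (φ (u n) - φ (u (n + 1)))) atTop (𝓝 (φ y + (L - L))) :=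
      tendsto_const_nhds.add (hlim.sub h3)
    have := le_of_tendsto_of_tendsto' h3 h4 h1
    linarith
  have h5 : ∀ n, dist (u n) y ≤ φ (u n) - L := fun n => by
    have := hφ _ _ (htrans _ _ _ (hRx n) hy)
    linarith
  have h6 : Tendsto (fun n => dist (u n) y) atTop (𝓝 0) := by
    refine squeeze_zero (fun n => dist_nonneg) h5 ?_
    simpa using hlim.sub_const L
  exact tendsto_nhds_unique (tendsto_iff_dist_tendsto_zero.2 h6) hx

/-- The norm of `C[0,1]` is rough. -/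
lemma rough (x : E) (δ : ℝ) (hδ : 0 < δ) :
    ∃ h : E, ‖h‖ = δ ∧ ‖x‖ + δ / 2 ≤ ‖x + h‖ ∧ ‖x‖ + δ / 2 ≤ ‖x - h‖ := by
  obtain ⟨t₀, ht₀⟩ : ∃ t₀, ‖x t₀‖ = ‖x‖ := by
    obtain ⟨t₀, _, h⟩ := isCompact_univ.exists_isMaxOn (Set.univ_nonempty (α := Set.Icc (0 : ℝ) 1))
      (x.continuous.norm.continuousOn)
    refine ⟨t₀, le_antisymm (x.norm_coe_le_norm t₀) ?_⟩
    rw [ContinuousMap.norm_le _ (norm_nonneg _)]
    intro t
    exact h (Set.mem_univ t)
  -- a point close to `t₀`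
  obtain ⟨t₁, ht₁, ht₁'⟩ : ∃ t₁, t₁ ≠ t₀ ∧ |x t₁ - x t₀| < δ / 2 := by
    have hc : ∀ᶠ t in 𝓝 t₀, |x t - x t₀| < δ / 2 := by
      have := (x.continuous.tendsto t₀)
      have h2 := Metric.tendsto_nhds.1 this (δ / 2) (by linarith)
      simpa [Real.dist_eq] using h2
    have hne : (𝓝[≠] t₀).NeBot := inferInstance
    have h3 : ∀ᶠ t in 𝓝[≠] t₀, |x t - x t₀| < δ / 2 ∧ t ≠ t₀ :=
      (hc.filter_mono nhdsWithin_le_nhds).and self_mem_nhdsWithin
    obtain ⟨t, h4, h5⟩ := h3.exists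
    exact ⟨t, h5, h4⟩
  have hne : (t₁ : ℝ) - t₀ ≠ 0 := sub_ne_zero.2 fun h => ht₁ (Subtype.ext h)
  obtain ⟨σ, hσ, hσx⟩ : ∃ σ : ℝ, |σ| = 1 ∧ σ * x t₀ = |x t₀| := by
    rcases le_total 0 (x t₀) with h | h
    · exact ⟨1, by simp, by rw [abs_of_nonneg h, one_mul]⟩
    · exact ⟨-1, by simp, by rw [abs_of_nonpos h]; ring⟩
  let g : E := ⟨fun t => max (-1) (min 1 (2 * ((t : ℝ) - t₀) / (t₁ - t₀) - 1)), by fun_prop⟩
  have hg : ∀ t, |g t| ≤ 1 := fun t => by
    rw [abs_le]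
    exact ⟨le_max_left _ _, max_le (by norm_num) (min_le_left _ _)⟩
  have hg0 : g t₀ = -1 := by
    change max (-1 : ℝ) (min 1 (2 * ((t₀ : ℝ) - t₀) / (t₁ - t₀) - 1)) = -1
    simp
  have hg1 : g t₁ = 1 := by
    change max (-1 : ℝ) (min 1 (2 * ((t₁ : ℝ) - t₀) / (t₁ - t₀) - 1)) = 1
    rw [mul_div_assoc, div_self hne]
    norm_num
  refine ⟨(δ * σ) • g, ?_, ?_, ?_⟩
  · apply le_antisymm
    · rw [norm_smul, Real.norm_eq_abs, abs_mul, hσ, abs_of_pos hδ, mul_one]
      have : ‖g‖ ≤ 1 := by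
        rw [ContinuousMap.norm_le _ zero_le_one]
        exact hg
      nlinarith
    · have := ((δ * σ) • g).norm_coe_le_norm t₁
      rw [ContinuousMap.smul_apply, hg1, smul_eq_mul, mul_one, Real.norm_eq_abs, abs_mul, hσ,
        abs_of_pos hδ, mul_one] at this
      exact this
  · have h := (x + (δ * σ) • g).norm_coe_le_norm t₁
    rw [ContinuousMap.add_apply, ContinuousMap.smul_apply, hg1, smul_eq_mul, mul_one,
      Real.norm_eq_abs] at h
    rw [← ht₀, Real.norm_eq_abs]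
    have h2 : |x t₁ + δ * σ| = |σ * (x t₁ + δ * σ)| := by rw [abs_mul, hσ, one_mul]
    have h3 : σ * (x t₁ + δ * σ) = |x t₀| + δ + σ * (x t₁ - x t₀) := by
      have hσ2 : σ * σ = 1 := by
        have := abs_mul_abs_self σ
        rw [hσ] at this
        linarith
      rw [mul_sub, hσx]
      linear_combination δ * hσ2
    have h4 : |σ * (x t₁ - x t₀)| < δ / 2 := by rw [abs_mul, hσ, one_mul]; exact ht₁'
    have h5 := (abs_lt.1 h4).1
    have h6 := le_abs_self (σ * (x t₁ + δ * σ))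
    rw [h2] at h
    linarith
  · have h := (x - (δ * σ) • g).norm_coe_le_norm t₀
    rw [ContinuousMap.sub_apply, ContinuousMap.smul_apply, hg0, smul_eq_mul,
      Real.norm_eq_abs] at h
    rw [← ht₀, Real.norm_eq_abs]
    have h2 : |x t₀ - δ * σ * -1| = |σ * (x t₀ - δ * σ * -1)| := by rw [abs_mul, hσ, one_mul]
    have h3 : σ * (x t₀ - δ * σ * -1) = |x t₀| + δ := by
      have hσ2 : σ * σ = 1 := by
        have := abs_mul_abs_self σ
        rw [hσ] at this
        linarith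
      rw [← hσx]
      linear_combination δ * hσ2
    rw [h2, h3] at h
    have h6 := le_abs_self (|x t₀| + δ)
    linarith

/-- There is no Fréchet differentiable bump function on `C[0,1]`. -/
lemma no_bump (b : E → ℝ) (hb : Differentiable ℝ b) (r : ℝ) (hr : 0 < r)
    (hsupp : ∀ x, r ≤ ‖x‖ → b x = 0) : b 0 ≤ 0 := by
  by_contra hcon
  push Not at hcon
  set β := b 0 with hβ
  set ε := β / (4 * r) with hε
  have hεpos : 0 < ε := by positivity
  -- the closed set
  let Y : Set E := {x | β / 2 ≤ b x}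
  have hYc : IsClosed Y := isClosed_le continuous_const hb.continuous
  have : CompleteSpace Y := hYc.completeSpace_coe
  have hYb : ∀ x : Y, ‖(x : E)‖ ≤ r := by
    rintro ⟨x, hx⟩
    by_contra h
    push Not at h
    have h1 := hsupp x h.le
    have h2 : β / 2 ≤ b x := hx
    linarith
  let R : Y → Y → Prop := fun x y => ‖(x : E) - y‖ ≤ 2 * (‖(y : E)‖ - ‖(x : E)‖) ∧
    b x - ε * (‖(y : E)‖ - ‖(x : E)‖) ≤ b y
  obtain ⟨x, hx1, hx2⟩ := exists_maximal R (fun x => by simp [R])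
    (fun x y z hxy hyz => by
      have h := norm_sub_le_norm_sub_add_norm_sub (x : E) y z
      have a1 : ‖(x : E) - y‖ ≤ 2 * (‖(y : E)‖ - ‖(x : E)‖) := hxy.1
      have a2 : ‖(y : E) - z‖ ≤ 2 * (‖(z : E)‖ - ‖(y : E)‖) := hyz.1
      have a3 : b x - ε * (‖(y : E)‖ - ‖(x : E)‖) ≤ b y := hxy.2
      have a4 : b y - ε * (‖(z : E)‖ - ‖(y : E)‖) ≤ b z := hyz.2
      refine ⟨by linarith, ?_⟩
      linarith)
    (fun x => by
      have c1 : IsClosed {y : Y | ‖(x : E) - y‖ ≤ 2 * (‖(y : E)‖ - ‖(x : E)‖)} :=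
        isClosed_le (by fun_prop) (by fun_prop)
      have c2 : IsClosed {y : Y | b x - ε * (‖(y : E)‖ - ‖(x : E)‖) ≤ b y} :=
        isClosed_le (by fun_prop) (hb.continuous.comp continuous_subtype_val)
      exact c1.inter c2)
    (fun x => 2 * (r - ‖(x : E)‖)) (fun x => by linarith [hYb x])
    (fun x y hxy => by
      have : dist x y = ‖(x : E) - y‖ := by rw [Subtype.dist_eq, dist_eq_norm]
      rw [this]
      linarith [hxy.1]) ⟨0, by change β / 2 ≤ b 0; linarith⟩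
  obtain ⟨x, hxY⟩ := x
  have hxr : ‖x‖ ≤ r := hYb ⟨x, hxY⟩
  have hbx : β - ε * r ≤ b x := by
    have h1 : b 0 - ε * (‖x‖ - ‖(0 : E)‖) ≤ b x := hx1.2
    rw [norm_zero, sub_zero] at h1
    have := mul_le_mul_of_nonneg_left hxr hεpos.le
    linarith
  have hεr : ε * r = β / 4 := by rw [hε]; field_simp
  have hbx' : β / 2 < b x := by linarith
  -- the derivative at `x`
  have hd := (hb x).hasFDerivAt
  rw [hasFDerivAt_iff_isLittleO_nhds_zero] at hd
  have h1 : ∀ᶠ h in 𝓝 (0 : E), ‖b (x + h) - b x - fderiv ℝ b x h‖ ≤ ε / 2 * ‖h‖ :=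
    hd.def (by positivity)
  have h2 : ∀ᶠ h in 𝓝 (0 : E), β / 2 < b (x + h) := by
    have hc : Continuous fun h : E => b (x + h) := hb.continuous.comp (by fun_prop)
    have := hc.tendsto 0
    rw [add_zero] at this
    exact this.eventually (lt_mem_nhds hbx')
  obtain ⟨δ, hδ, hball⟩ := Metric.eventually_nhds_iff.1 (h1.and h2)
  obtain ⟨h, hh, hplus, hminus⟩ := rough x (δ / 2) (by linarith)
  -- choose the sign
  obtain ⟨k, hk, hk1, hk2⟩ : ∃ k : E, ‖k‖ = δ / 2 ∧ ‖x‖ + δ / 2 / 2 ≤ ‖x + k‖ ∧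
      0 ≤ fderiv ℝ b x k := by
    rcases le_total 0 (fderiv ℝ b x h) with h3 | h3
    · exact ⟨h, hh, hplus, h3⟩
    · refine ⟨-h, by rw [norm_neg]; exact hh, by rw [← sub_eq_add_neg]; exact hminus, ?_⟩
      rw [map_neg]; linarith
  have hk3 := hball (show dist k 0 < δ by rw [dist_zero_right, hk]; linarith)
  have hkY : x + k ∈ Y := hk3.2.le
  have h4 := (abs_le.1 hk3.1).1
  have h5 := hx2 ⟨x + k, hkY⟩ (by
    have e : x - (x + k) = -k := by abel
    refine ⟨?_, ?_⟩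
    · change ‖x - (x + k)‖ ≤ 2 * (‖x + k‖ - ‖x‖)
      rw [e, norm_neg, hk]
      linarith
    · change b x - ε * (‖x + k‖ - ‖x‖) ≤ b (x + k)
      have h8 : ε * (δ / 2 / 2) ≤ ε * (‖x + k‖ - ‖x‖) :=
        mul_le_mul_of_nonneg_left (by linarith) hεpos.le
      rw [hk] at h4
      linarith)
  have h6 : x + k = x := congrArg Subtype.val h5
  have h7 : k = 0 := by simpa using h6
  rw [h7, norm_zero] at hk
  linarith

/-- For every `r > 0` there is an open neighbourhood `U` of the sphere `S_r` of `C[0,1]` such that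
no Fréchet differentiable map `H` of `C[0,1]` into `U` is the identity on a neighbourhood of `S_r`.
In particular `S_r` admits `C^q` blid maps for no `q ∈ {1, 2, …} ∪ {∞}`. -/
theorem result (r : ℝ) (hr : 0 < r) :
    (∃ U : Set E, IsOpen U ∧ Metric.sphere 0 r ⊆ U ∧
      ∀ H : E → E, Differentiable ℝ H → (∀ x, H x ∈ U) →
        ¬ ∃ V ∈ 𝓝ˢ (Metric.sphere (0 : E) r), ∀ x ∈ V, H x = x) ∧
    ∀ q : ℕ∞, 1 ≤ q → ¬ AdmitsBlid q (Metric.sphere (0 : E) r) := by
  have main : ∃ U : Set E, IsOpen U ∧ Metric.sphere 0 r ⊆ U ∧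
      ∀ H : E → E, Differentiable ℝ H → (∀ x, H x ∈ U) →
        ¬ ∃ V ∈ 𝓝ˢ (Metric.sphere (0 : E) r), ∀ x ∈ V, H x = x := by
    refine ⟨{x | 0 < ‖x‖}, isOpen_lt continuous_const continuous_norm, ?_, ?_⟩
    · intro x hx
      rw [mem_sphere_zero_iff_norm] at hx
      change 0 < ‖x‖
      rw [hx]; exact hr
    rintro H hH hU ⟨V, hV, hHV⟩
    have hH0 : H 0 ≠ 0 := norm_pos_iff.1 (hU 0)
    obtain ⟨t, ht⟩ : ∃ t, H 0 t ≠ 0 := by
      by_contra hcon
      push Not at hcon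
      exact hH0 (ContinuousMap.ext hcon)
    -- the bump function
    let ev : E →L[ℝ] ℝ := ContinuousMap.evalCLM ℝ t
    let σ : ℝ := H 0 t
    let b : E → ℝ := fun x => if ‖x‖ < r then σ * ev (H x - x) else 0
    have hb0 : 0 < b 0 := by
      have : b 0 = σ * ev (H 0 - 0) := if_pos (by rw [norm_zero]; exact hr)
      rw [this, sub_zero]
      exact mul_self_pos.2 ht
    have hbdiff : Differentiable ℝ b := by
      intro x
      rcases lt_trichotomy ‖x‖ r with h | h | h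
      · have h1 : b =ᶠ[𝓝 x] fun x => σ * ev (H x - x) := by
          have : ∀ᶠ y in 𝓝 x, ‖y‖ < r := (continuous_norm.tendsto x).eventually (gt_mem_nhds h)
          filter_upwards [this] with y hy using if_pos hy
        refine DifferentiableAt.congr_of_eventuallyEq ?_ h1
        have h2 : DifferentiableAt ℝ (fun x => H x - x) x := (hH x).sub differentiableAt_id
        exact (ev.differentiableAt.comp x h2).const_mul σ
      · have h1 : b =ᶠ[𝓝 x] fun _ => 0 := by
          have : V ∈ 𝓝 x := mem_nhdsSet_iff_forall.1 hV x (by rw [mem_sphere_zero_iff_norm]; exact h)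
          filter_upwards [this] with y hy
          change (if ‖y‖ < r then σ * ev (H y - y) else 0) = 0
          rw [hHV y hy, sub_self, map_zero, mul_zero, ite_self]
        exact (differentiableAt_const _).congr_of_eventuallyEq h1
      · have h1 : b =ᶠ[𝓝 x] fun _ => 0 := by
          have : ∀ᶠ y in 𝓝 x, r < ‖y‖ := (continuous_norm.tendsto x).eventually (lt_mem_nhds h)
          filter_upwards [this] with y hy using if_neg (not_lt.2 hy.le)
        exact (differentiableAt_const _).congr_of_eventuallyEq h1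
    have := no_bump b hbdiff r hr (fun x hx => if_neg (not_lt.2 hx))
    linarith
  refine ⟨main, fun q hq hadm => ?_⟩
  obtain ⟨U, hUo, hSU, hno⟩ := main
  obtain ⟨H, hH, hHU, V, hV, _, hHV⟩ := hadm U (hUo.mem_nhdsSet.2 hSU)
  refine hno H (hH.differentiable ?_) hHU ⟨V, hV, hHV⟩
  intro h
  have h0 : q = 0 := by exact_mod_cast h
  rw [h0] at hq
  simp at hq

end Pool.Agent.Results.MP_a52dbe_an.NoBlidAtSphere
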